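import Pool.Agent.N28.BM.Thm

/-!
# The crystalline geometric Breuil-Mezard conjecture as a system of difference equations

`K / ℚ_p` finite with residue field `k` (`p ^ f` elements), `d = n + 1`, `S = Hom(K, E)`. We fix an
embedding `ι` of `k` into an algebraically closed field `F` of characteristic `p`; the embedding
`σ ∈ S` induces the residue embedding `x ↦ ι(x) ^ (p ^ κ σ)`, `κ : S → ℤ/f` surjective.
`t : Fˣ → ℂˣ` is an injective homomorphism (Brauer lift).

* `h : Wt S d` is a family of integers `h_{σ,i}`; `Dom h` says that it is a regular tuple of labelled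
  Hodge-Tate weights: `h_{σ,1} > ... > h_{σ,d}` for every `σ`.
* `Z h` (`h` regular) is the cycle of the special fibre of the stack of crystalline representations
  with Hodge-Tate weights `h`, in the group `M` of the cycles of the reduced stack. `Z` is extended to
  all `h` as an alternating function (`Alt`): a permutation of the weights at one embedding changes
  the value by its sign, and `Z h = 0` if two weights at one embedding are equal.
* `s h` is the Weyl character of highest weight `h - ρ`: the Laurent polynomial with
  `s h * altE ρ = altE h`.
* `D : SerreWeights`: the irreducible representations of `GL_d(k)` and their Brauer characters.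
* `mult h w = n_w(h)` is the multiplicity of the Serre weight `w` in the reduction of the algebraic
  representation of highest weight `h - ρ` (`IsMult`, with the trivial type `θ = 1`).
  `Generates`: the classes of these reductions generate the Grothendieck group (Steinberg).

**Theorem.** Cycles `Z_w` with `Z h = ∑ n_w(h) Z_w` for all regular `h` exist (Q1 for `K`, `d`) if and
only if for all regular `h`, all `1 ≤ r ≤ d` and all embeddings `σ`, `σ'` such that the residue
embedding of `σ'` is the Frobenius conjugate of the one of `σ` the sum of `Z` over all ways to add `p`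
to `r` of the weights at `σ` is equal to the sum over all ways to add `1` to `r` of the weights at
`σ'`. The cycles `Z_w` are unique.

For `K = ℚ_p`, `d = 2` the equations are `Z(a+p,b) + Z(a,b+p) = Z(a+1,b) + Z(a,b+1)` and
`Z(a+p,b+p) = Z(a+1,b+1)` (the latter is the compatibility with twists).
-/

namespace Pool.Agent.Results.MP_4c60d4_nt.DifferenceEquations

open Pool.Agent.N28.BM

/-- **The crystalline geometric Breuil-Mezard conjecture for `K`, `d` is equivalent to difference
equations in the Hodge-Tate weights.** -/
theorem result {k F : Type} [Field k] [Fintype k] [Field F] [IsAlgClosed F] (ι : k →+* F)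
    {p f : ℕ} [Fact p.Prime] [CharP F p] (hk : Fintype.card k = p ^ f) (hf : f ≠ 0)
    {S : Type} [Fintype S] [DecidableEq S] {n : ℕ} (κ : S → ZMod f)
    (hκ : Function.Surjective κ) (t : Fˣ →* ℂˣ) (ht : Function.Injective t)
    (s : Wt S (n + 1) → P S (n + 1)) (hs : IsWeyl s) (D : SerreWeights k F (n + 1) t)
    (mult : Wt S (n + 1) → D.W → ℕ) (hmult : IsMult ι (p := p) κ t s D (fun _ => 1) mult)
    (hgen : Generates t D mult) {M : Type*} [AddCommGroup M] (Z : Wt S (n + 1) → M)
    (hZ : Alt Z) :
    ((∃ z : D.W → M, ∀ h, Dom h → Z h = ∑ w, mult h w • z w) ↔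
      ∀ h, Dom h → ∀ σ σ', κ σ' = κ σ + 1 → ∀ r, 1 ≤ r → r ≤ n + 1 →
        shift Z h σ p r = shift Z h σ' 1 r) ∧
    ∀ z z' : D.W → M, (∀ h, Dom h → Z h = ∑ w, mult h w • z w) →
      (∀ h, Dom h → Z h = ∑ w, mult h w • z' w) → z = z' :=
  crystalline ι hk hf κ hκ t ht s hs D mult hmult hgen Z hZ

end Pool.Agent.Results.MP_4c60d4_nt.DifferenceEquations
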